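import Mathlib

/-!
# Modules of type `FP_n` and projective dimension
-/

set_option autoImplicit false

namespace Pool.Agent.Y72.Ty

open CategoryTheory

/-- `M` is of type `FP_n`: there is an exact sequence `Q_n → ... → Q_0 → M → 0` with finitely
generated projective modules `Q_i` (for `n = 0`: `M` is finitely generated) -/
def FP (R : Type) [Ring R] : ℕ → ∀ (M : Type) [AddCommGroup M] [Module R M], Prop
  | 0, M, _, _ => Module.Finite R M
  | n + 1, M, _, _ => ∃ (Q : Type) (_ : AddCommGroup Q) (_ : Module R Q), Module.Finite R Q ∧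
      Module.Projective R Q ∧ ∃ f : Q →ₗ[R] M, Function.Surjective f ∧ FP R n (LinearMap.ker f)

/-- `M` has a resolution `0 → Q_n → ... → Q_0 → M → 0` by finitely generated projective modules
`Q_i` -/
def FR (R : Type) [Ring R] : ℕ → ∀ (M : Type) [AddCommGroup M] [Module R M], Prop
  | 0, M, _, _ => Module.Finite R M ∧ Module.Projective R M
  | n + 1, M, _, _ => ∃ (Q : Type) (_ : AddCommGroup Q) (_ : Module R Q), Module.Finite R Q ∧
      Module.Projective R Q ∧ ∃ f : Q →ₗ[R] M, Function.Surjective f ∧ FR R n (LinearMap.ker f)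

variable {R : Type} [Ring R]

theorem fp_of_projective : ∀ (m : ℕ) (M : Type) [AddCommGroup M] [Module R M],
    Module.Finite R M → Module.Projective R M → FP R m M := by
  intro m
  induction m with
  | zero => intro M _ _ h _; exact h
  | succ m ih =>
    intro M _ _ h1 h2
    refine ⟨M, inferInstance, inferInstance, h1, h2, LinearMap.id, Function.surjective_id, ?_⟩
    have hs : Subsingleton (LinearMap.ker (LinearMap.id : M →ₗ[R] M)) := by
      constructor
      rintro ⟨a, ha⟩ ⟨b, hb⟩
      apply Subtype.ext
      have ha' : a = 0 := ha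
      have hb' : b = 0 := hb
      change a = b
      rw [ha', hb']
    apply ih
    · infer_instance
    · infer_instance

theorem FP.pred : ∀ (n : ℕ) (M : Type) [AddCommGroup M] [Module R M], FP R (n + 1) M →
    FP R n M := by
  intro n
  induction n with
  | zero =>
    intro M _ _ h
    obtain ⟨Q, i1, i2, hQ1, hQ2, f, hf, hk⟩ := h
    exact Module.Finite.of_surjective f hf
  | succ n ih =>
    intro M _ _ h
    obtain ⟨Q, i1, i2, hQ1, hQ2, f, hf, hk⟩ := h
    exact ⟨Q, i1, i2, hQ1, hQ2, f, hf, ih _ hk⟩

theorem FP.mono {n m : ℕ} (hnm : n ≤ m) (M : Type) [AddCommGroup M] [Module R M]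
    (h : FP R m M) : FP R n M := by
  induction m, hnm using Nat.le_induction with
  | base => exact h
  | succ m _ ih => exact ih (FP.pred m M h)

theorem FR.fp : ∀ (n : ℕ) (M : Type) [AddCommGroup M] [Module R M], FR R n M →
    ∀ m, FP R m M := by
  intro n
  induction n with
  | zero => intro M _ _ h m; exact fp_of_projective m M h.1 h.2
  | succ n ih =>
    intro M _ _ h m
    obtain ⟨Q, i1, i2, hQ1, hQ2, f, hf, hk⟩ := h
    cases m with
    | zero => exact Module.Finite.of_surjective f hf
    | succ m => exact ⟨Q, i1, i2, hQ1, hQ2, f, hf, ih _ hk m⟩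

theorem fr_of_fp : ∀ (n : ℕ) (M : Type) [AddCommGroup M] [Module R M], FP R n M →
    HasProjectiveDimensionLT (ModuleCat.of R M) (n + 1) → FR R n M := by
  intro n
  induction n with
  | zero =>
    intro M _ _ h1 h2
    refine ⟨h1, ?_⟩
    rw [← projective_iff_hasProjectiveDimensionLT_one] at h2
    exact (IsProjective.iff_projective M).2 h2
  | succ n ih =>
    intro M _ _ h1 h2
    obtain ⟨Q, i1, i2, hQ1, hQ2, f, hf, hk⟩ := h1
    refine ⟨Q, i1, i2, hQ1, hQ2, f, hf, ih _ hk ?_⟩
    let S : ShortComplex (ModuleCat R) := ShortComplex.mk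
      (ModuleCat.ofHom (LinearMap.ker f).subtype) (ModuleCat.ofHom f) (by
        ext x
        exact x.2)
    have hS : S.ShortExact := by
      refine { exact := ?_, mono_f := ?_, epi_g := ?_ }
      · rw [ShortComplex.moduleCat_exact_iff]
        intro x hx
        exact ⟨⟨x, hx⟩, rfl⟩
      · rw [ModuleCat.mono_iff_injective]
        exact Subtype.val_injective
      · rw [ModuleCat.epi_iff_surjective]
        exact hf
    exact (hS.hasProjectiveDimensionLT_X₃_iff n ((IsProjective.iff_projective Q).1 hQ2)).1 h2

end Pool.Agent.Y72.Ty
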