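import Mathlib

/-!
# Projective dimension and group cohomology
-/

set_option autoImplicit false

namespace Pool.Agent.Y72.Ty

open CategoryTheory

universe v u v' u'

theorem pd_transfer {C : Type u} [Category.{v} C] [Abelian C] [EnoughProjectives C]
    {D : Type u'} [Category.{v'} D] [Abelian D] (e : C ≌ D) :
    ∀ (n : ℕ) (X : C), HasProjectiveDimensionLT X (n + 1) →
      HasProjectiveDimensionLT (e.functor.obj X) (n + 1) := by
  have hadd : e.functor.Additive := Functor.additive_of_preserves_binary_products _
  intro n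
  induction n with
  | zero =>
    intro X h
    rw [← projective_iff_hasProjectiveDimensionLT_one] at h ⊢
    exact (e.map_projective_iff X).2 h
  | succ n ih =>
    intro X h
    let S : ShortComplex C := ShortComplex.mk (Limits.kernel.ι (Projective.π X)) (Projective.π X)
      (Limits.kernel.condition _)
    have hS : S.ShortExact :=
      { exact := ShortComplex.exact_of_f_is_kernel _ (Limits.kernelIsKernel _) }
    have hS' : (S.map e.functor).ShortExact := hS.map_of_exact e.functor
    have h2 : Projective S.X₂ := inferInstanceAs (Projective (Projective.over X))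
    have h1 := (hS.hasProjectiveDimensionLT_X₃_iff n h2).1 h
    exact (hS'.hasProjectiveDimensionLT_X₃_iff n ((e.map_projective_iff S.X₂).2 h2)).2
      (ih _ h1)

theorem pd_of_van {G : Type} [Group G] {n : ℕ}
    (h : ∀ k, n ≤ k → ∀ A : Rep.{0} ℤ G, Limits.IsZero (groupCohomology A (k + 1))) :
    HasProjectiveDimensionLT (Rep.trivial ℤ G ℤ) (n + 1) := by
  let := HasExt.standard (Rep.{0} ℤ G)
  rw [hasProjectiveDimensionLT_iff]
  intro i hi Y e
  obtain ⟨j, rfl⟩ : ∃ j, i = j + 1 := ⟨i - 1, by omega⟩
  obtain ⟨f, hf, rfl⟩ := (Rep.barResolution ℤ G).extMk_surjective e (j + 2) rfl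
  rw [ProjectiveResolution.extMk_eq_zero_iff _ _ _ _ _ j rfl]
  have h1 := (h j (by omega) Y).of_iso
    (groupCohomologyIso Y (j + 1) (Rep.barResolution ℤ G)).symm
  rw [← HomologicalComplex.exactAt_iff_isZero_homology,
    HomologicalComplex.exactAt_iff' _ j (j + 1) (j + 2) (by simp) (by simp),
    ShortComplex.moduleCat_exact_iff] at h1
  obtain ⟨g, hg⟩ := h1 f hf
  exact ⟨g, hg⟩

end Pool.Agent.Y72.Ty
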