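import Pool.Agent.H540R3.DG10
import Pool.Agent.Y72.Ea.Idm
import Pool.Agent.Y72.Ty.Mod
import Pool.Agent.Y72.Ty.Tr

/-!
# Finiteness properties of diagram groups
-/

set_option autoImplicit false

namespace Pool.Agent.Y72.Ty

open CategoryTheory H540DG Pool.Agent.H599R3.SV Pool.Agent.Y72.Ea

/-- The group `G` is of type `FP_n`: there is an exact sequence `Q_n → ... → Q_0 → ℤ → 0` of
`ℤ[G]`-modules with finitely generated projective modules `Q_i`, where `G` acts trivially on
`ℤ`. -/
def TypeFP (G : Type) [Group G] (n : ℕ) : Prop :=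
  FP (MonoidAlgebra ℤ G) n (Representation.trivial ℤ G ℤ).asModule

/-- The trivial `ℤ[G]`-module `ℤ` has a resolution `0 → Q_n → ... → Q_0 → ℤ → 0` by finitely
generated projective modules `Q_i`; so `G` is of type `FP` and has cohomological dimension at most
`n`. -/
def FinRes (G : Type) [Group G] (n : ℕ) : Prop :=
  FR (MonoidAlgebra ℤ G) n (Representation.trivial ℤ G ℤ).asModule

theorem finRes_of_van {G : Type} [Group G] {n : ℕ} (h : ∀ k, n ≤ k → Van G k)
    (hF : TypeFP G n) : FinRes G n := by
  have h1 : HasProjectiveDimensionLT (Rep.trivial ℤ G ℤ) (n + 1) := by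
    apply pd_of_van
    intro k hk A
    exact @van_isZero G _ k (h k hk) A.V A.hV1 A.hV2 A.ρ
  have h2 := pd_transfer (Rep.equivalenceModuleMonoidAlgebra (k := ℤ) (G := G)) n _ h1
  exact fr_of_fp n _ hF h2

theorem adLE_of_not {G : Type} [Group G] {n : ℕ}
    (h : ¬ ∃ f : Multiplicative (Fin (n + 1) → ℤ) →* G, Function.Injective f) : AdLE G n := by
  rintro m ⟨f, hf⟩
  by_contra hm
  apply h
  have hm' : n + 1 ≤ m := by omega
  let T : (Fin (n + 1) → ℤ) →+ (Fin m → ℤ) :=
    { toFun := fun x j => if h : (j : ℕ) < n + 1 then x ⟨j, h⟩ else 0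
      map_zero' := by
        funext j
        simp
      map_add' := by
        intro x y
        funext j
        change (if h : (j : ℕ) < n + 1 then (x + y) ⟨j, h⟩ else 0) =
          (if h : (j : ℕ) < n + 1 then x ⟨j, h⟩ else 0) +
            (if h : (j : ℕ) < n + 1 then y ⟨j, h⟩ else 0)
        by_cases h : (j : ℕ) < n + 1
        · rw [dif_pos h, dif_pos h, dif_pos h]
          rfl
        · rw [dif_neg h, dif_neg h, dif_neg h, add_zero] }
  have hT : Function.Injective T := by
    intro x y hxy
    funext j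
    have h1 := congrFun hxy ⟨j, by omega⟩
    have h2 : ∀ z : Fin (n + 1) → ℤ, T z ⟨j, by omega⟩ = z j := by
      intro z
      change (if h : (j : ℕ) < n + 1 then z ⟨j, h⟩ else 0) = z j
      rw [dif_pos j.2]
    rw [h2, h2] at h1
    exact h1
  refine ⟨f.comp (AddMonoidHom.toMultiplicative T), ?_⟩
  exact hf.comp hT

variable {A : Type} {P : Pres A}

theorem van_G {w : List A} {G : Type} [Group G] (e : G ≃* Dg P w) {n : ℕ} (had : AdLE G n)
    (k : ℕ) (hk : n ≤ k) : Van G k :=
  (van_of_adLE n w (Pool.Agent.Y72.Ea.adLE_congr e had) k hk).congr e.symm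

theorem finRes_G {w : List A} {G : Type} [Group G] (e : G ≃* Dg P w) {n : ℕ} (had : AdLE G n)
    (hF : TypeFP G n) : FinRes G n :=
  finRes_of_van (fun k hk => van_G e had k hk) hF

theorem vanish_G {w : List A} {G : Type} [Group G] (e : G ≃* Dg P w) {n : ℕ} (had : AdLE G n)
    (k : ℕ) (hk : n < k) (M : Rep.{0} ℤ G) : Subsingleton (groupCohomology M k) := by
  obtain ⟨k, rfl⟩ : ∃ k', k = k' + 1 := ⟨k - 1, by omega⟩
  exact ModuleCat.subsingleton_of_isZero
    (@van_isZero G _ k (van_G e had k (by omega)) M.V M.hV1 M.hV2 M.ρ)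

theorem adLE_of_vanish {G : Type} [Group G] {n : ℕ}
    (h : ∀ k : ℕ, n < k → ∀ M : Rep.{0} ℤ G, Subsingleton (groupCohomology M k)) : AdLE G n := by
  rintro m ⟨f, hf⟩
  by_contra hm
  obtain ⟨m, rfl⟩ : ∃ m', m = m' + 1 := ⟨m - 1, by omega⟩
  obtain ⟨M, hM⟩ := exists_nontrivial_cohomology f hf
  exact not_nontrivial_iff_subsingleton.2 (h (m + 1) (by omega) M) hM

/-- a word with a nontrivial diagram group -/
theorem nontriv {p : List A} (h : ¬ Tr P p) : Nontrivial (DiagramGroup P p) := by
  by_contra hn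
  rw [not_nontrivial_iff_subsingleton] at hn
  apply h
  intro β hβ
  have h1 : (⟨β, hβ⟩ : Dg P p) = 1 := by
    apply (dgEquiv P p).symm.injective
    exact Subsingleton.elim _ _
  exact congrArg Subtype.val h1

/-- if all the decompositions of `w` modulo `P` into words with nontrivial diagram groups have at
most `n` factors, type `FP_n` implies the existence of a resolution of length `n` -/
theorem finRes_dec {w : List A} {G : Type} [Group G] (e : G ≃* Dg P w) {n : ℕ}
    (h : ¬ ∃ ps : List (List A), n < ps.length ∧ (∀ p ∈ ps, Nontrivial (DiagramGroup P p)) ∧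
      ∃ L : List (OE P), IsPath w L ps.flatten)
    (hF : TypeFP G n) : FinRes G n := by
  have hd : DecLE P w n := by
    intro ps γ h1 h2
    by_contra hn
    obtain ⟨L, hL, -⟩ := h2
    exact h ⟨ps, by omega, fun p hp => nontriv (h1 p hp), L, hL⟩
  exact finRes_G e (Pool.Agent.Y72.Ea.adLE_congr e.symm (adLE_of_decLE hd)) hF

/-- finitely generated torsion-free commutative groups are free abelian of finite rank -/
theorem free_ab {G : Type} [Group G] (hc : ∀ x y : G, x * y = y * x) [hfg : Group.FG G]
    (htf : ∀ g : G, ∀ n : ℕ, n ≠ 0 → g ^ n = 1 → g = 1) :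
    ∃ k : ℕ, Nonempty (G ≃* Multiplicative (Fin k → ℤ)) := by
  let i : CommGroup G := { (inferInstance : Group G) with mul_comm := hc }
  have h1 : Module.Finite ℤ (Additive G) := by
    rw [Module.Finite.iff_addGroup_fg]
    exact AddGroup.fg_iff_mul_fg.2 hfg
  have h2 : Module.IsTorsionFree ℤ (Additive G) := by
    constructor
    intro r hr x y hxy
    have hr0 : r ≠ 0 := hr.ne_zero
    have h5 : r • (x - y) = 0 := by
      rw [smul_sub, sub_eq_zero]
      exact hxy
    have h6 : r.natAbs • (x - y) = 0 := by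
      rcases Int.natAbs_eq r with h | h
      · rw [h, natCast_zsmul] at h5
        exact h5
      · rw [h, neg_smul, natCast_zsmul, neg_eq_zero] at h5
        exact h5
    have h7 : x - y = 0 := htf (Additive.toMul (x - y)) r.natAbs (Int.natAbs_ne_zero.2 hr0) h6
    exact sub_eq_zero.1 h7
  have h3 : Module.Free ℤ (Additive G) := Module.free_of_finite_type_torsion_free'
  let b := Module.finBasis ℤ (Additive G)
  refine ⟨Module.finrank ℤ (Additive G), ⟨?_⟩⟩
  exact (AddEquiv.toMultiplicative b.equivFun.toAddEquiv : _)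

end Pool.Agent.Y72.Ty
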